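import Pool.Agent.PLG.Stmts
import Pool.Agent.Helper53_FCM.Pac

/-!
Row PKV of squad PLG (MP_1fc801_co): packing.
-/

set_option autoImplicit false

namespace Pool.Agent.PLG.H4

open Module Pool.Agent.PLG

theorem pkv : PkvStmt := by
  classical
  intro E _ _ f M hM S δ R hδ hR hS hsep
  let b := Module.finBasis ℚ M
  let F : Submodule ℝ E := Submodule.span ℝ (Set.range fun i => f (b i : ℂ))
  have hFfin : FiniteDimensional ℝ F := FiniteDimensional.span_of_finite ℝ (Set.finite_range _)
  have hFdim : finrank ℝ F ≤ finrank ℚ M := by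
    have h := finrank_range_le_card (R := ℝ) (fun i => f (b i : ℂ))
    rw [Fintype.card_fin] at h
    exact h
  have hmem : ∀ x ∈ M, f x ∈ F := by
    intro x hx
    have h1 : x = ((∑ i, b.repr ⟨x, hx⟩ i • b i : M) : ℂ) := by
      rw [b.sum_repr]
    rw [h1, Submodule.coe_sum, map_sum]
    refine F.sum_mem fun i _ => ?_
    rw [Submodule.coe_smul, f_rat]
    exact F.smul_mem _ (Submodule.subset_span ⟨i, rfl⟩)
  let g : {x // x ∈ S} → F := fun x => ⟨f x.1, hmem x.1 (hS x.1 x.2).1⟩
  have hinj : Function.Injective g := by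
    intro x y hxy
    by_contra hne
    have h1 : x.1 ≠ y.1 := fun h => hne (Subtype.ext h)
    have h2 := hsep x.1 x.2 y.1 y.2 h1
    have h3 : f x.1 = f y.1 := congrArg Subtype.val hxy
    rw [map_sub, h3, sub_self, norm_zero] at h2
    linarith
  let T : Finset F := Finset.univ.image g
  have hcard : T.card = S.card := by
    rw [Finset.card_image_of_injective _ hinj, Finset.card_univ, Fintype.card_coe]
  have hT := Pool.Agent.FCM.card_le_of_separated T δ R hδ hR
    (by
      intro c hc
      obtain ⟨x, -, rfl⟩ := Finset.mem_image.1 hc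
      exact (hS x.1 x.2).2)
    (by
      intro c hc d hd hcd
      obtain ⟨x, -, rfl⟩ := Finset.mem_image.1 hc
      obtain ⟨y, -, rfl⟩ := Finset.mem_image.1 hd
      have h1 : x.1 ≠ y.1 := fun h => hcd (by rw [Subtype.ext h])
      have h2 := hsep x.1 x.2 y.1 y.2 h1
      rw [map_sub] at h2
      exact h2)
  rw [hcard] at hT
  have hbase : 1 ≤ 2 * R / δ + 1 := by
    have : 0 ≤ 2 * R / δ := by positivity
    linarith
  calc (S.card : ℝ) ≤ (2 * R / δ + 1) ^ finrank ℝ F := hT
    _ ≤ (2 * R / δ + 1) ^ finrank ℚ M := pow_le_pow_right₀ hbase hFdim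
    _ = (1 + 2 * R / δ) ^ finrank ℚ M := by rw [add_comm]

end Pool.Agent.PLG.H4
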